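import Pool.Agent.Helper81.XP.StA
import Pool.Agent.Helper81.XP.Pj

set_option autoImplicit false

/-!
MP_f90738_co, module PRO (product theorem).
-/

open Finset
open scoped Pointwise LinearAlgebra.Projectivization

namespace Pool.Agent.Helper77.XP.PRO

open Pool.Agent.Helper81.XP

section Comm

variable {F : Type} [Field F]

/-- the two products as entries -/
theorem comm_iff (x a : SL F) : x * a = a * x ↔
    ((x : Matrix (Fin 2) (Fin 2) F) 0 1 * (a : Matrix (Fin 2) (Fin 2) F) 1 0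
      = (a : Matrix (Fin 2) (Fin 2) F) 0 1 * (x : Matrix (Fin 2) (Fin 2) F) 1 0) ∧
    ((x : Matrix (Fin 2) (Fin 2) F) 0 1
        * ((a : Matrix (Fin 2) (Fin 2) F) 0 0 - (a : Matrix (Fin 2) (Fin 2) F) 1 1)
      = (a : Matrix (Fin 2) (Fin 2) F) 0 1
        * ((x : Matrix (Fin 2) (Fin 2) F) 0 0 - (x : Matrix (Fin 2) (Fin 2) F) 1 1)) ∧
    ((x : Matrix (Fin 2) (Fin 2) F) 1 0
        * ((a : Matrix (Fin 2) (Fin 2) F) 0 0 - (a : Matrix (Fin 2) (Fin 2) F) 1 1)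
      = (a : Matrix (Fin 2) (Fin 2) F) 1 0
        * ((x : Matrix (Fin 2) (Fin 2) F) 0 0 - (x : Matrix (Fin 2) (Fin 2) F) 1 1)) := by
  constructor
  · intro h
    have h' : (x : Matrix (Fin 2) (Fin 2) F) * (a : Matrix (Fin 2) (Fin 2) F)
        = (a : Matrix (Fin 2) (Fin 2) F) * (x : Matrix (Fin 2) (Fin 2) F) := by
      rw [← Matrix.SpecialLinearGroup.coe_mul, h, Matrix.SpecialLinearGroup.coe_mul]
    have h00 := congrFun (congrFun h' 0) 0
    have h01 := congrFun (congrFun h' 0) 1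
    have h10 := congrFun (congrFun h' 1) 0
    simp only [Matrix.mul_apply, Fin.sum_univ_two] at h00 h01 h10
    refine ⟨?_, ?_, ?_⟩
    · linear_combination h00
    · linear_combination -h01
    · linear_combination h10
  · rintro ⟨h1, h2, h3⟩
    apply Matrix.SpecialLinearGroup.ext
    intro i j
    rw [Matrix.SpecialLinearGroup.coe_mul, Matrix.SpecialLinearGroup.coe_mul]
    simp only [Matrix.mul_apply, Fin.sum_univ_two]
    fin_cases i <;> fin_cases j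
    · simp only [Fin.zero_eta]
      linear_combination h1
    · simp only [Fin.zero_eta, Fin.mk_one]
      linear_combination -h2
    · simp only [Fin.zero_eta, Fin.mk_one]
      linear_combination h3
    · simp only [Fin.mk_one]
      linear_combination -h1

theorem comm_par (x a : SL F) (hx1 : x ≠ 1) (hx2 : x ≠ -1) (h : x * a = a * x) :
    ∃ c : F, (a : Matrix (Fin 2) (Fin 2) F) 0 1 = c * (x : Matrix (Fin 2) (Fin 2) F) 0 1 ∧
      (a : Matrix (Fin 2) (Fin 2) F) 1 0 = c * (x : Matrix (Fin 2) (Fin 2) F) 1 0 ∧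
      (a : Matrix (Fin 2) (Fin 2) F) 0 0 - (a : Matrix (Fin 2) (Fin 2) F) 1 1
        = c * ((x : Matrix (Fin 2) (Fin 2) F) 0 0 - (x : Matrix (Fin 2) (Fin 2) F) 1 1) := by
  obtain ⟨h1, h2, h3⟩ := (comm_iff x a).1 h
  by_cases hb : (x : Matrix (Fin 2) (Fin 2) F) 0 1 = 0
  · by_cases hc : (x : Matrix (Fin 2) (Fin 2) F) 1 0 = 0
    · have hd : (x : Matrix (Fin 2) (Fin 2) F) 0 0 - (x : Matrix (Fin 2) (Fin 2) F) 1 1 ≠ 0 := by
        intro hd
        rcases eq_pm_one x hb hc (sub_eq_zero.1 hd) with h | h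
        · exact hx1 h
        · exact hx2 h
      rw [hb, zero_mul] at h2
      rw [hc, zero_mul] at h3
      have ha1 := (mul_eq_zero.1 h2.symm).resolve_right hd
      have ha2 := (mul_eq_zero.1 h3.symm).resolve_right hd
      refine ⟨((a : Matrix (Fin 2) (Fin 2) F) 0 0 - (a : Matrix (Fin 2) (Fin 2) F) 1 1)
        / ((x : Matrix (Fin 2) (Fin 2) F) 0 0 - (x : Matrix (Fin 2) (Fin 2) F) 1 1), ?_, ?_, ?_⟩
      · rw [ha1, hb, mul_zero]
      · rw [ha2, hc, mul_zero]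
      · rw [div_mul_cancel₀ _ hd]
    · refine ⟨(a : Matrix (Fin 2) (Fin 2) F) 1 0 / (x : Matrix (Fin 2) (Fin 2) F) 1 0,
        ?_, ?_, ?_⟩
      · field_simp
        linear_combination -h1
      · rw [div_mul_cancel₀ _ hc]
      · field_simp
        linear_combination h3
  · refine ⟨(a : Matrix (Fin 2) (Fin 2) F) 0 1 / (x : Matrix (Fin 2) (Fin 2) F) 0 1,
      ?_, ?_, ?_⟩
    · rw [div_mul_cancel₀ _ hb]
    · field_simp
      linear_combination h1
    · field_simp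
      linear_combination h2

theorem disc (x : SL F) : tr x ^ 2 - 4
    = ((x : Matrix (Fin 2) (Fin 2) F) 0 0 - (x : Matrix (Fin 2) (Fin 2) F) 1 1) ^ 2
      + 4 * ((x : Matrix (Fin 2) (Fin 2) F) 0 1 * (x : Matrix (Fin 2) (Fin 2) F) 1 0) := by
  have hd := det_eq x
  rw [tr_eq]
  linear_combination (4 : F) * hd

/-- an element that commutes with a regular semisimple element is regular semisimple -/
theorem tr_ne (x a : SL F) (hx1 : x ≠ 1) (hx2 : x ≠ -1) (h : x * a = a * x)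
    (ha : tr a ^ 2 ≠ 4) : tr x ^ 2 ≠ 4 := by
  intro hx
  obtain ⟨c, h1, h2, h3⟩ := comm_par x a hx1 hx2 h
  apply ha
  have e1 := disc x
  have e2 := disc a
  rw [h1, h2, h3] at e2
  have e3 : tr x ^ 2 - 4 = 0 := sub_eq_zero.2 hx
  apply sub_eq_zero.1
  rw [e2]
  linear_combination c ^ 2 * (e3 - e1)

/-- transitivity of commutation -/
theorem comm_trans (y x a : SL F) (hx1 : x ≠ 1) (hx2 : x ≠ -1) (h : x * a = a * x)
    (h' : x * y = y * x) : y * a = a * y := by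
  obtain ⟨c, h1, h2, h3⟩ := comm_par x a hx1 hx2 h
  obtain ⟨d, k1, k2, k3⟩ := comm_par x y hx1 hx2 h'
  rw [comm_iff]
  refine ⟨?_, ?_, ?_⟩
  · rw [h1, h2, k1, k2]; ring
  · rw [h1, h3, k1, k3]; ring
  · rw [h2, h3, k2, k3]; ring

end Comm

section Io

variable (p : ℕ) [Fact p.Prime]

theorem io_apply (x : SL (ZMod p)) (i j : Fin 2) :
    (io p x : Matrix (Fin 2) (Fin 2) (AlgebraicClosure (ZMod p))) i j
      = algebraMap (ZMod p) (AlgebraicClosure (ZMod p))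
        ((x : Matrix (Fin 2) (Fin 2) (ZMod p)) i j) := rfl

theorem io_inj : Function.Injective (io p) := by
  intro x y h
  apply Matrix.SpecialLinearGroup.ext
  intro i j
  apply (algebraMap (ZMod p) (AlgebraicClosure (ZMod p))).injective
  rw [← io_apply, ← io_apply, h]

theorem tr_io (x : SL (ZMod p)) :
    tr (io p x) = algebraMap (ZMod p) (AlgebraicClosure (ZMod p)) (tr x) := by
  rw [tr_eq, tr_eq, io_apply, io_apply, map_add]

theorem tr_io_ne (x : SL (ZMod p)) : tr (io p x) ^ 2 ≠ 4 ↔ tr x ^ 2 ≠ 4 := by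
  rw [tr_io, ← map_pow]
  have h4 : (4 : AlgebraicClosure (ZMod p)) = algebraMap (ZMod p) (AlgebraicClosure (ZMod p)) 4 := by
    rw [map_ofNat]
  rw [h4, (algebraMap (ZMod p) (AlgebraicClosure (ZMod p))).injective.ne_iff]

open Classical in
theorem image_filter_card (A : Finset (SL (ZMod p))) (a : SL (ZMod p)) :
    ((((A.image (io p)) ^ 2).filter (fun x => x * io p a = io p a * x)).card)
      = ((A ^ 2).filter (fun x => x * a = a * x)).card := by
  have h1 : (A.image (io p)) ^ 2 = (A ^ 2).image (io p) := by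
    rw [Finset.image_pow]
  rw [h1, Finset.filter_image, Finset.card_image_of_injective _ (io_inj p)]
  have h2 : ∀ x : SL (ZMod p), (io p x * io p a = io p a * io p x) ↔ x * a = a * x := by
    intro x
    rw [← map_mul, ← map_mul, (io_inj p).eq_iff]
  simp only [h2]

end Io

open Classical in
/-- the lower bound for tori, in the finite group -/
theorem prb_fin {C0 : ℕ} (hC : ∀ (K : Type) [Field K] [IsAlgClosed K] (A : Finset (SL K))
      (κ : ℝ), IsApproximateSubgroup κ (A : Set (SL K)) → NI A →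
      (∀ a ∈ A ^ 20, tr a ^ 2 ≠ 4 →
        (A.card : ℝ) ≤ C0 * κ ^ C0 * (((A ^ 2).filter (fun x => x * a = a * x)).card : ℝ) ^ 3) ∧
      (C0 * κ ^ C0 < (A.card : ℝ) → ∃ a ∈ A ^ 20, tr a ^ 2 ≠ 4))
    (hNIV : ST_NIV) (p : ℕ) [Fact p.Prime] (hp : 5 ≤ p) (A : Finset (SL (ZMod p))) (κ : ℝ)
    (hA : IsApproximateSubgroup κ (A : Set (SL (ZMod p))))
    (hcl : Subgroup.closure (A : Set (SL (ZMod p))) = ⊤) :
    (∀ a ∈ A ^ 20, tr a ^ 2 ≠ 4 →
      (A.card : ℝ) ≤ C0 * κ ^ C0 * (((A ^ 2).filter (fun x => x * a = a * x)).card : ℝ) ^ 3) ∧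
    (C0 * κ ^ C0 < (A.card : ℝ) → ∃ a ∈ A ^ 20, tr a ^ 2 ≠ 4) := by
  have hNI := hNIV p hp A hcl
  have hA' : IsApproximateSubgroup κ
      ((A.image (io p) : Finset (SL (AlgebraicClosure (ZMod p)))) :
        Set (SL (AlgebraicClosure (ZMod p)))) := by
    rw [Finset.coe_image]
    exact hA.image (io p)
  obtain ⟨h1, h2⟩ := hC (AlgebraicClosure (ZMod p)) (A.image (io p)) κ hA' hNI
  have hcard : (A.image (io p)).card = A.card := Finset.card_image_of_injective _ (io_inj p)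
  constructor
  · intro a ha hta
    have h3 := h1 (io p a) (by
      rw [← Finset.image_pow]
      exact Finset.mem_image_of_mem _ ha) ((tr_io_ne p a).2 hta)
    rw [hcard, image_filter_card] at h3
    exact h3
  · intro hlt
    rw [hcard] at h2
    obtain ⟨b, hb, htb⟩ := h2 hlt
    rw [← Finset.image_pow, Finset.mem_image] at hb
    obtain ⟨a, ha, rfl⟩ := hb
    exact ⟨a, ha, (tr_io_ne p a).1 htb⟩

open Classical in
/-- a set with more than two elements contains an element different from `1` and `-1` -/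
theorem exists_ne {F : Type} [Field F] (T : Finset (SL F)) (h : 2 < T.card) :
    ∃ y ∈ T, y ≠ 1 ∧ y ≠ -1 := by
  by_contra hcon
  push Not at hcon
  have hsub : T ⊆ {1, -1} := by
    intro y hy
    rw [Finset.mem_insert, Finset.mem_singleton]
    by_cases h1 : y = 1
    · exact Or.inl h1
    · exact Or.inr (hcon y hy h1)
  have := Finset.card_le_card hsub
  have h2 : ({1, -1} : Finset (SL F)).card ≤ 2 := Finset.card_le_two
  omega

theorem pow_sub {G : Type} [Group G] [DecidableEq G] (A : Finset G) (h1 : 1 ∈ A) (m n : ℕ)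
    (h : m ≤ n) : A ^ m ⊆ A ^ n := Finset.pow_subset_pow_right h1 h

open Classical in
theorem main_aux {C0 : ℕ} (p : ℕ) [Fact p.Prime]
    (A : Finset (SL (ZMod p))) (κ : ℝ) (hκ : 1 ≤ κ) (h1A : 1 ∈ A)
    (hinv : ∀ h ∈ A, h⁻¹ ∈ A) (hcl : Subgroup.closure (A : Set (SL (ZMod p))) = ⊤)
    (hP : ∀ a ∈ A ^ 20, tr a ^ 2 ≠ 4 →
      (A.card : ℝ) ≤ C0 * κ ^ C0 * (((A ^ 2).filter (fun x => x * a = a * x)).card : ℝ) ^ 3)
    (hbig : 64 * (C0 * κ ^ C0) < (A.card : ℝ)) (a : SL (ZMod p)) (ha : a ∈ A ^ 20)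
    (hta : tr a ^ 2 ≠ 4) (g : SL (ZMod p)) :
    (A.card : ℝ) ≤ 8 * (C0 * κ ^ C0) * (((A ^ 2).filter
      (fun y => (y ≠ 1 ∧ y ≠ -1) ∧ y * (g * a * g⁻¹) = (g * a * g⁻¹) * y)).card : ℝ) ^ 3 := by
  have hc0 : (0 : ℝ) ≤ C0 * κ ^ C0 := by positivity
  have hcard : ∀ b ∈ A ^ 20, tr b ^ 2 ≠ 4 →
      4 < ((A ^ 2).filter (fun x => x * b = b * x)).card := by
    intro b hb htb
    have h2 := hP b hb htb
    by_contra hle
    push Not at hle
    have h3 : (((A ^ 2).filter (fun x => x * b = b * x)).card : ℝ) ≤ 4 := by exact_mod_cast hle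
    have h4 : (((A ^ 2).filter (fun x => x * b = b * x)).card : ℝ) ^ 3 ≤ 4 ^ 3 :=
      pow_le_pow_left₀ (Nat.cast_nonneg _) h3 3
    have h5 := mul_le_mul_of_nonneg_left h4 hc0
    linarith
  have hI : ∀ g : SL (ZMod p), ∃ x ∈ A ^ 2, (x ≠ 1 ∧ x ≠ -1) ∧
      x * (g * a * g⁻¹) = (g * a * g⁻¹) * x := by
    intro g
    have hg : g ∈ Subgroup.closure (A : Set (SL (ZMod p))) := by rw [hcl]; trivial
    have step : ∀ h ∈ A, ∀ g : SL (ZMod p), (∃ x ∈ A ^ 2, (x ≠ 1 ∧ x ≠ -1) ∧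
        x * (g * a * g⁻¹) = (g * a * g⁻¹) * x) → ∃ x ∈ A ^ 2, (x ≠ 1 ∧ x ≠ -1) ∧
        x * ((h * g) * a * (h * g)⁻¹) = ((h * g) * a * (h * g)⁻¹) * x := by
      rintro h hh g ⟨x, hx, ⟨hx1, hx2⟩, hxc⟩
      have htx : tr x ^ 2 ≠ 4 := tr_ne x (g * a * g⁻¹) hx1 hx2 hxc (by rw [tr_conj]; exact hta)
      have hx' : h * x * h⁻¹ ∈ A ^ 20 := by
        apply pow_sub A h1A 4 20 (by norm_num)
        have e4 : A ^ 4 = A * A ^ 2 * A := by
          rw [← pow_succ', ← pow_succ]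
        rw [e4]
        exact Finset.mul_mem_mul (Finset.mul_mem_mul hh hx) (hinv h hh)
      have htx' : tr (h * x * h⁻¹) ^ 2 ≠ 4 := by rw [tr_conj]; exact htx
      obtain ⟨y, hy, hy1, hy2⟩ := exists_ne _ (by
        have := hcard _ hx' htx'
        omega : 2 < ((A ^ 2).filter (fun z => z * (h * x * h⁻¹) = (h * x * h⁻¹) * z)).card)
      rw [Finset.mem_filter] at hy
      refine ⟨y, hy.1, ⟨hy1, hy2⟩, ?_⟩
      have hne1 : h * x * h⁻¹ ≠ 1 := by
        intro he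
        apply hx1
        have h5 : x = h⁻¹ * (h * x * h⁻¹) * h := by group
        rw [h5, he]
        group
      have hne2 : h * x * h⁻¹ ≠ -1 := by
        intro he
        apply hx2
        have h5 : x = h⁻¹ * (h * x * h⁻¹) * h := by group
        rw [h5, he]
        simp
      apply comm_trans y (h * x * h⁻¹) _ hne1 hne2 _ hy.2.symm
      have h6 : (h * g) * a * (h * g)⁻¹ = h * (g * a * g⁻¹) * h⁻¹ := by group
      rw [h6]
      calc h * x * h⁻¹ * (h * (g * a * g⁻¹) * h⁻¹) = h * (x * (g * a * g⁻¹)) * h⁻¹ := by group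
        _ = h * ((g * a * g⁻¹) * x) * h⁻¹ := by rw [hxc]
        _ = h * (g * a * g⁻¹) * h⁻¹ * (h * x * h⁻¹) := by group
    induction hg using Subgroup.closure_induction_left with
    | one =>
      obtain ⟨y, hy, hy1, hy2⟩ := exists_ne _ (by
        have := hcard _ ha hta
        omega : 2 < ((A ^ 2).filter (fun z => z * a = a * z)).card)
      rw [Finset.mem_filter] at hy
      refine ⟨y, hy.1, ⟨hy1, hy2⟩, ?_⟩
      rw [inv_one, one_mul, mul_one]
      exact hy.2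
    | mul_left x hx y _ ih => exact step x hx y ih
    | inv_mul_cancel x hx y _ ih => exact step x⁻¹ (hinv x hx) y ih
  obtain ⟨x, hx, ⟨hx1, hx2⟩, hxc⟩ := hI g
  have htx : tr x ^ 2 ≠ 4 := tr_ne x (g * a * g⁻¹) hx1 hx2 hxc (by rw [tr_conj]; exact hta)
  have hx20 : x ∈ A ^ 20 := pow_sub A h1A 2 20 (by norm_num) hx
  have h2 := hP x hx20 htx
  have h3 := hcard x hx20 htx
  set T := (A ^ 2).filter (fun z => z * x = x * z) with hT
  set N := (A ^ 2).filter
      (fun y => (y ≠ 1 ∧ y ≠ -1) ∧ y * (g * a * g⁻¹) = (g * a * g⁻¹) * y) with hN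
  have hsub : T ⊆ N ∪ {1, -1} := by
    intro y hy
    rw [hT, Finset.mem_filter] at hy
    rw [Finset.mem_union, hN, Finset.mem_filter, Finset.mem_insert, Finset.mem_singleton]
    by_cases e1 : y = 1
    · exact Or.inr (Or.inl e1)
    · by_cases e2 : y = -1
      · exact Or.inr (Or.inr e2)
      · exact Or.inl ⟨hy.1, ⟨e1, e2⟩, comm_trans y x _ hx1 hx2 hxc hy.2.symm⟩
  have hcT : T.card ≤ N.card + 2 := by
    refine (Finset.card_le_card hsub).trans ((Finset.card_union_le _ _).trans ?_)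
    have : ({1, -1} : Finset (SL (ZMod p))).card ≤ 2 := Finset.card_le_two
    omega
  have hcT2 : T.card ≤ 2 * N.card := by omega
  have h4 : (T.card : ℝ) ≤ 2 * (N.card : ℝ) := by exact_mod_cast hcT2
  have h5 : (T.card : ℝ) ^ 3 ≤ (2 * (N.card : ℝ)) ^ 3 :=
    pow_le_pow_left₀ (Nat.cast_nonneg _) h4 3
  calc (A.card : ℝ) ≤ C0 * κ ^ C0 * (T.card : ℝ) ^ 3 := h2
    _ ≤ C0 * κ ^ C0 * (2 * (N.card : ℝ)) ^ 3 := mul_le_mul_of_nonneg_left h5 hc0
    _ = 8 * (C0 * κ ^ C0) * (N.card : ℝ) ^ 3 := by ring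

/-- the final computation -/
theorem arith {C0 : ℕ} (hC0 : 1 ≤ C0) (p : ℕ) (hp : 5 ≤ p) (κ n Ng : ℝ) (hκ : 1 ≤ κ) (hn : 0 < n)
    (hNg0 : 0 ≤ Ng) (h1 : n ≤ 8 * (C0 * κ ^ C0) * Ng ^ 3)
    (h2 : ((p : ℝ) ^ 3 - p) * Ng ≤ 4 * p * (κ * n)) :
    (p : ℝ) ^ 3 ≤ ((4096 * C0 : ℕ) : ℝ) * κ ^ (4096 * C0) * n := by
  have hp' : (5 : ℝ) ≤ p := by exact_mod_cast hp
  have hp0 : (0 : ℝ) < p := by linarith
  have hC1 : (1 : ℝ) ≤ C0 := by exact_mod_cast hC0
  have hκ0 : (0 : ℝ) ≤ κ := by linarith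
  have hc0 : (0 : ℝ) ≤ C0 * κ ^ C0 := by positivity
  have h3 : (p : ℝ) ^ 2 * Ng ≤ 8 * (κ * n) := by
    have h4 : (p : ℝ) ^ 3 / 2 ≤ (p : ℝ) ^ 3 - p := by nlinarith [mul_pos hp0 hp0]
    have h5 : (p : ℝ) ^ 3 / 2 * Ng ≤ 4 * p * (κ * n) :=
      (mul_le_mul_of_nonneg_right h4 hNg0).trans h2
    have h6 : (p : ℝ) * ((p : ℝ) ^ 2 * Ng) ≤ p * (8 * (κ * n)) := by nlinarith
    exact le_of_mul_le_mul_left h6 hp0
  have h7 : ((p : ℝ) ^ 2 * Ng) ^ 3 ≤ (8 * (κ * n)) ^ 3 :=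
    pow_le_pow_left₀ (by positivity) h3 3
  have h8 : (p : ℝ) ^ 6 * n ≤ 8 * (C0 * κ ^ C0) * (8 * (κ * n)) ^ 3 := by
    calc (p : ℝ) ^ 6 * n ≤ (p : ℝ) ^ 6 * (8 * (C0 * κ ^ C0) * Ng ^ 3) :=
          mul_le_mul_of_nonneg_left h1 (by positivity)
      _ = 8 * (C0 * κ ^ C0) * ((p : ℝ) ^ 2 * Ng) ^ 3 := by ring
      _ ≤ _ := mul_le_mul_of_nonneg_left h7 (by positivity)
  have h9 : ((p : ℝ) ^ 3) ^ 2 ≤ 4096 * C0 * κ ^ (C0 + 3) * n ^ 2 := by
    have h10 : ((p : ℝ) ^ 3) ^ 2 * n ≤ (4096 * C0 * κ ^ (C0 + 3) * n ^ 2) * n := by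
      calc ((p : ℝ) ^ 3) ^ 2 * n = (p : ℝ) ^ 6 * n := by ring
        _ ≤ _ := h8
        _ = (4096 * C0 * κ ^ (C0 + 3) * n ^ 2) * n := by rw [pow_add]; ring
    exact le_of_mul_le_mul_right h10 hn
  have h11 : (4096 * C0 * κ ^ (C0 + 3) * n ^ 2 : ℝ)
      ≤ (((4096 * C0 : ℕ) : ℝ) * κ ^ (4096 * C0) * n) ^ 2 := by
    have e1 : κ ^ (C0 + 3) ≤ κ ^ (2 * (4096 * C0)) :=
      pow_le_pow_right₀ hκ (by omega)
    have e2 : (4096 * C0 : ℝ) ≤ (4096 * C0 : ℝ) ^ 2 := by nlinarith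
    have e3 : (4096 * C0 * κ ^ (C0 + 3) : ℝ) ≤ (4096 * C0 : ℝ) ^ 2 * κ ^ (2 * (4096 * C0)) :=
      mul_le_mul e2 e1 (by positivity) (by positivity)
    have e4 := mul_le_mul_of_nonneg_right e3 (sq_nonneg n)
    refine e4.trans (le_of_eq ?_)
    push_cast
    rw [mul_comm 2 (4096 * C0), pow_mul]
    ring
  exact le_of_sq_le_sq (h9.trans h11) (by positivity)

open Classical in
theorem st_PRO (hPRB : ST_PRB) (hNIV : ST_NIV) (hSTB : ST_STB) (hCRD : ST_CRD) : ST_PRO := by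
  obtain ⟨C0, hC01, hC⟩ := hPRB
  refine ⟨4096 * C0, by omega, ?_⟩
  intro p _ hp A κ hA hcl
  have hκ : 1 ≤ κ := hA.one_le
  have hκ0 : 0 ≤ κ := by linarith
  by_cases hle : (A.card : ℝ) ≤ ((4096 * C0 : ℕ) : ℝ) * κ ^ (4096 * C0)
  · exact Or.inl hle
  right
  push Not at hle
  have hC1 : (1 : ℝ) ≤ C0 := by exact_mod_cast hC01
  have hbig : 64 * (C0 * κ ^ C0) < (A.card : ℝ) := by
    refine lt_of_le_of_lt ?_ hle
    have e1 : κ ^ C0 ≤ κ ^ (4096 * C0) := pow_le_pow_right₀ hκ (by omega)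
    have e2 : (64 * C0 : ℝ) ≤ ((4096 * C0 : ℕ) : ℝ) := by push_cast; linarith
    calc 64 * (C0 * κ ^ C0) = (64 * C0 : ℝ) * κ ^ C0 := by ring
      _ ≤ _ := mul_le_mul e2 e1 (by positivity) (by positivity)
  obtain ⟨hP1, hP2⟩ := prb_fin hC hNIV p hp A κ hA hcl
  have hc0 : (0 : ℝ) ≤ C0 * κ ^ C0 := by positivity
  obtain ⟨a, ha, hta⟩ := hP2 (by linarith)
  have h1A : (1 : SL (ZMod p)) ∈ A := by
    have := hA.one_mem
    exact_mod_cast this
  have hinv : ∀ h ∈ A, h⁻¹ ∈ A := by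
    intro h hh
    have h2 := hA.inv_eq_self
    have h3 : h⁻¹ ∈ ((A : Set (SL (ZMod p)))⁻¹) := by
      rw [Set.mem_inv, inv_inv]
      exact_mod_cast hh
    rw [h2] at h3
    exact_mod_cast h3
  have hmain := main_aux p A κ hκ h1A hinv hcl hP1 hbig a ha hta
  set t := (A ^ 2).filter (fun y : SL (ZMod p) => y ≠ 1 ∧ y ≠ -1) with ht
  set r : SL (ZMod p) → SL (ZMod p) → Prop :=
    fun g y => y * (g * a * g⁻¹) = (g * a * g⁻¹) * y with hr
  have hN : ∀ g, ((A ^ 2).filter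
      (fun y => (y ≠ 1 ∧ y ≠ -1) ∧ y * (g * a * g⁻¹) = (g * a * g⁻¹) * y)).card
      = (t.bipartiteAbove r g).card := by
    intro g
    rw [Finset.bipartiteAbove, ht, Finset.filter_filter]
  have hdc := Finset.sum_card_bipartiteAbove_eq_sum_card_bipartiteBelow
    (s := (univ : Finset (SL (ZMod p)))) (t := t) r
  have hcount : ∑ g : SL (ZMod p), (t.bipartiteAbove r g).card ≤ (A ^ 2).card * (4 * p) := by
    rw [hdc]
    calc ∑ y ∈ t, ((univ : Finset (SL (ZMod p))).bipartiteBelow r y).card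
        ≤ ∑ _y ∈ t, 4 * p := by
          refine Finset.sum_le_sum fun y hy => ?_
          rw [ht, Finset.mem_filter] at hy
          have := hSTB p a y hta hy.2.1 hy.2.2
          exact this
      _ = t.card * (4 * p) := by rw [Finset.sum_const, smul_eq_mul]
      _ ≤ _ := Nat.mul_le_mul_right _ (Finset.card_filter_le _ _)
  have hA2 : ((A ^ 2).card : ℝ) ≤ κ * (A.card : ℝ) := by
    have := hA.card_pow_le (n := 2)
    simpa using this
  have hcount' : (∑ g : SL (ZMod p), ((t.bipartiteAbove r g).card : ℝ))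
      ≤ 4 * p * (κ * (A.card : ℝ)) := by
    have h3 : (∑ g : SL (ZMod p), ((t.bipartiteAbove r g).card : ℝ))
        ≤ ((A ^ 2).card : ℝ) * (4 * p) := by exact_mod_cast hcount
    refine h3.trans ?_
    have h4 : (0 : ℝ) ≤ 4 * p := by positivity
    nlinarith [mul_le_mul_of_nonneg_right hA2 h4]
  have hG : (Fintype.card (SL (ZMod p)) : ℝ) = (p : ℝ) ^ 3 - p := by
    have h3 := hCRD p (Fact.out)
    rw [Nat.card_eq_fintype_card] at h3
    have h4 : p ≤ p ^ 3 := by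
      calc p = p ^ 1 := (pow_one p).symm
        _ ≤ p ^ 3 := Nat.pow_le_pow_right (by omega) (by norm_num)
    rw [h3, Nat.cast_sub h4, Nat.cast_pow]
  have hG0 : (0 : ℝ) < (p : ℝ) ^ 3 - p := by
    rw [← hG]
    exact_mod_cast Fintype.card_pos
  obtain ⟨g, -, hg⟩ := Finset.exists_le_of_sum_le (s := (univ : Finset (SL (ZMod p))))
    (f := fun g => ((t.bipartiteAbove r g).card : ℝ))
    (g := fun _ => 4 * p * (κ * (A.card : ℝ)) / ((p : ℝ) ^ 3 - p))
    Finset.univ_nonempty (by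
      rw [Finset.sum_const, Finset.card_univ, nsmul_eq_mul, hG, mul_div_cancel₀ _ hG0.ne']
      exact hcount')
  have hA0 : (0 : ℝ) < (A.card : ℝ) := by
    have : 0 < A.card := Finset.card_pos.2 ⟨1, h1A⟩
    exact_mod_cast this
  have hmg := hmain g
  rw [hN g] at hmg
  refine arith hC01 p hp κ (A.card : ℝ) ((t.bipartiteAbove r g).card : ℝ) hκ hA0
    (Nat.cast_nonneg _) hmg ?_
  have h5 := mul_le_mul_of_nonneg_left hg hG0.le
  rwa [mul_div_cancel₀ _ hG0.ne'] at h5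

end Pool.Agent.Helper77.XP.PRO
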